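import Pool.Agent.Helper15.LR.Defs3

set_option autoImplicit false

open Finset Filter
open scoped Classical Topology

namespace Pool.Agent.Helper36.LR

open Pool.Agent.Helper15.LR

noncomputable section

theorem key_inj {N a a' i i' : ℤ} (hi : 0 ≤ i) (hi' : 0 ≤ i') (hiN : i < N) (hiN' : i' < N)
    (h : a * N + i = a' * N + i') : a = a' ∧ i = i' := by
  have h1 : (a - a') * N = i' - i := by linarith [sub_mul a a' N]
  have h2 : a = a' := by
    rcases lt_trichotomy (a - a') 0 with h3 | h3 | h3
    · have h4 : a - a' ≤ -1 := by omega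
      have h5 : (a - a') * N ≤ -1 * N := mul_le_mul_of_nonneg_right h4 (by omega)
      omega
    · omega
    · have h4 : 1 ≤ a - a' := by omega
      have h5 : 1 * N ≤ (a - a') * N := mul_le_mul_of_nonneg_right h4 (by omega)
      omega
  refine ⟨h2, ?_⟩
  rw [h2] at h
  linarith

theorem key_lt {N a a' i i' : ℤ} (h6 : 0 ≤ N) (hi : 0 ≤ i) (hiN' : i' < N)
    (h : a * N + i < a' * N + i') : a ≤ a' := by
  by_contra hcon
  push Not at hcon
  have h4 : 1 ≤ a - a' := by omega
  have h5 : 1 * N ≤ (a - a') * N := mul_le_mul_of_nonneg_right h4 h6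
  have h7 : (a - a') * N = a * N - a' * N := sub_mul a a' N
  omega

theorem R2 (hG : Galvin_stmt) : Level2_stmt := by
  intro V _ F side L p q hside hcond
  set n : ℕ := Fintype.card V with hn
  obtain ⟨idx, idx_nonneg, idx_lt, idx_inj⟩ : ∃ idx : V → ℤ, (∀ v, 0 ≤ idx v) ∧
      (∀ v, idx v < (n : ℤ) + 1) ∧ ∀ u v, idx u = idx v → u = v := by
    refine ⟨fun v => (((Fintype.equivFin V v : Fin (Fintype.card V)) : ℕ) : ℤ),
      fun v => Int.natCast_nonneg _, ?_, ?_⟩
    · intro v
      have h := (Fintype.equivFin V v).2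
      show (((Fintype.equivFin V v : Fin (Fintype.card V)) : ℕ) : ℤ) < (n : ℤ) + 1
      omega
    · intro u v h
      have h0 : (((Fintype.equivFin V u : Fin (Fintype.card V)) : ℕ) : ℤ)
        = (((Fintype.equivFin V v : Fin (Fintype.card V)) : ℕ) : ℤ) := h
      exact (Fintype.equivFin V).injective (Fin.ext (by exact_mod_cast h0))
  set N : ℤ := (n : ℤ) + 1 with hN
  have hN0 : 0 ≤ N := by omega
  set E : Finset (V × V) := univ.filter (fun z => s(z.1, z.2) ∈ F ∧ side z.1 = true ∧
    side z.2 = false) with hE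
  have hEmem : ∀ z : V × V, z ∈ E ↔ s(z.1, z.2) ∈ F ∧ side z.1 = true ∧ side z.2 = false := by
    intro z
    rw [hE, Finset.mem_filter]
    exact ⟨fun h => h.2, fun h => ⟨Finset.mem_univ _, h⟩⟩
  set r : V × V → ℤ := fun z => (p s(z.1, z.2) : ℤ) * N + idx z.2 with hr
  set t : V × V → ℤ := fun z => (-(q s(z.1, z.2) : ℤ)) * N + idx z.1 with ht
  have hyp1 : ∀ e ∈ E, ∀ e' ∈ E, e.1 = e'.1 → r e = r e' → e = e' := by
    intro e he e' he' h1 h2
    have h3 := key_inj (idx_nonneg e.2) (idx_nonneg e'.2) (idx_lt e.2) (idx_lt e'.2) h2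
    exact Prod.ext h1 (idx_inj _ _ h3.2)
  have hyp2 : ∀ e ∈ E, ∀ e' ∈ E, e.2 = e'.2 → t e = t e' → e = e' := by
    intro e he e' he' h1 h2
    have h3 := key_inj (idx_nonneg e.1) (idx_nonneg e'.1) (idx_lt e.1) (idx_lt e'.1) h2
    exact Prod.ext (idx_inj _ _ h3.2) h1
  have hyp3 : ∀ e ∈ E, (E.filter (fun e' => e'.1 = e.1 ∧ r e' < r e)).card +
        (E.filter (fun e' => e'.2 = e.2 ∧ t e' < t e)).card < (L s(e.1, e.2)).card := by
    rintro ⟨a, b⟩ he
    obtain ⟨heF, ha, hb⟩ := (hEmem (a, b)).1 he
    have hc := hcond a b heF ha hb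
    -- first part
    have h1 : (E.filter (fun e' => e'.1 = a ∧ r e' < r (a, b))).card + 1 ≤
        ((nb F a).filter (fun u => p s(a, u) ≤ p s(a, b))).card := by
      have hsub : insert b ((E.filter (fun e' => e'.1 = a ∧ r e' < r (a, b))).image Prod.snd)
          ⊆ (nb F a).filter (fun u => p s(a, u) ≤ p s(a, b)) := by
        intro u hu
        rw [Finset.mem_insert] at hu
        rcases hu with rfl | hu
        · rw [Finset.mem_filter, nb, Finset.mem_filter]
          exact ⟨⟨Finset.mem_univ _, heF⟩, le_rfl⟩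
        · rw [Finset.mem_image] at hu
          obtain ⟨z, hz, rfl⟩ := hu
          rw [Finset.mem_filter] at hz
          obtain ⟨hzE, hz1, hzr⟩ := hz
          have hzF := ((hEmem z).1 hzE).1
          rw [hz1] at hzF
          rw [Finset.mem_filter, nb, Finset.mem_filter]
          refine ⟨⟨Finset.mem_univ _, hzF⟩, ?_⟩
          have h5 : (p s(z.1, z.2) : ℤ) ≤ (p s(a, b) : ℤ) :=
            key_lt hN0 (idx_nonneg z.2) (idx_lt b) hzr
          rw [hz1] at h5
          exact_mod_cast h5
      have hnot : b ∉ (E.filter (fun e' => e'.1 = a ∧ r e' < r (a, b))).image Prod.snd := by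
        intro hb'
        rw [Finset.mem_image] at hb'
        obtain ⟨z, hz, hzb⟩ := hb'
        rw [Finset.mem_filter] at hz
        have : z = (a, b) := Prod.ext hz.2.1 hzb
        rw [this] at hz
        exact lt_irrefl _ hz.2.2
      have hcard := Finset.card_le_card hsub
      rw [Finset.card_insert_of_notMem hnot, Finset.card_image_of_injOn] at hcard
      · exact hcard
      · intro z hz z' hz' hzz
        have g1 := (Finset.mem_filter.1 (Finset.mem_coe.1 hz)).2.1
        have g2 := (Finset.mem_filter.1 (Finset.mem_coe.1 hz')).2.1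
        exact Prod.ext (g1.trans g2.symm) hzz
    have h2 : (E.filter (fun e' => e'.2 = b ∧ t e' < t (a, b))).card + 1 ≤
        ((nb F b).filter (fun u => q s(a, b) ≤ q s(b, u))).card := by
      have hsub : insert a ((E.filter (fun e' => e'.2 = b ∧ t e' < t (a, b))).image Prod.fst)
          ⊆ (nb F b).filter (fun u => q s(a, b) ≤ q s(b, u)) := by
        intro u hu
        rw [Finset.mem_insert] at hu
        rcases hu with rfl | hu
        · rw [Finset.mem_filter, nb, Finset.mem_filter]
          refine ⟨⟨Finset.mem_univ _, by rw [Sym2.eq_swap]; exact heF⟩, ?_⟩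
          rw [Sym2.eq_swap]
        · rw [Finset.mem_image] at hu
          obtain ⟨z, hz, rfl⟩ := hu
          rw [Finset.mem_filter] at hz
          obtain ⟨hzE, hz1, hzr⟩ := hz
          have hzF := ((hEmem z).1 hzE).1
          rw [hz1, Sym2.eq_swap] at hzF
          rw [Finset.mem_filter, nb, Finset.mem_filter]
          refine ⟨⟨Finset.mem_univ _, hzF⟩, ?_⟩
          have h5 : (-(q s(z.1, z.2) : ℤ)) ≤ (-(q s(a, b) : ℤ)) :=
            key_lt hN0 (idx_nonneg z.1) (idx_lt a) hzr
          rw [hz1] at h5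
          have h6 : q s(a, b) ≤ q s(z.1, b) := by
            have : (q s(a, b) : ℤ) ≤ (q s(z.1, b) : ℤ) := by omega
            exact_mod_cast this
          rw [Sym2.eq_swap (a := b) (b := z.1)]
          exact h6
      have hnot : a ∉ (E.filter (fun e' => e'.2 = b ∧ t e' < t (a, b))).image Prod.fst := by
        intro hb'
        rw [Finset.mem_image] at hb'
        obtain ⟨z, hz, hzb⟩ := hb'
        rw [Finset.mem_filter] at hz
        have : z = (a, b) := Prod.ext hzb hz.2.1
        rw [this] at hz
        exact lt_irrefl _ hz.2.2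
      have hcard := Finset.card_le_card hsub
      rw [Finset.card_insert_of_notMem hnot, Finset.card_image_of_injOn] at hcard
      · exact hcard
      · intro z hz z' hz' hzz
        have g1 := (Finset.mem_filter.1 (Finset.mem_coe.1 hz)).2.1
        have g2 := (Finset.mem_filter.1 (Finset.mem_coe.1 hz')).2.1
        exact Prod.ext hzz (g1.trans g2.symm)
    show (E.filter (fun e' => e'.1 = a ∧ r e' < r (a, b))).card +
        (E.filter (fun e' => e'.2 = b ∧ t e' < t (a, b))).card < (L s(a, b)).card
    omega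
  obtain ⟨f, hfL, hfne⟩ := hG V V E r t (fun z => L s(z.1, z.2)) hyp1 hyp2 hyp3
  have hex : ∀ e : Sym2 V, ∃ c : ℕ, ∀ z ∈ E, s(z.1, z.2) = e → c = f z := by
    intro e
    by_cases h : ∃ z ∈ E, s(z.1, z.2) = e
    · obtain ⟨z, hz, hze⟩ := h
      refine ⟨f z, ?_⟩
      intro z' hz' hze'
      have hzz : s(z.1, z.2) = s(z'.1, z'.2) := hze.trans hze'.symm
      rw [Sym2.eq_iff] at hzz
      rcases hzz with ⟨h1, h2⟩ | ⟨h1, h2⟩
      · have : z = z' := Prod.ext h1 h2
        rw [this]
      · have g1 := ((hEmem z).1 hz).2.1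
        have g2 := ((hEmem z').1 hz').2.2
        rw [h1, g2] at g1
        exact absurd g1 (by decide)
    · exact ⟨0, fun z hz hze => absurd ⟨z, hz, hze⟩ h⟩
  choose g hg using hex
  have horient : ∀ u v, s(u, v) ∈ F → (u, v) ∈ E ∨ (v, u) ∈ E := by
    intro u v huv
    have h := hside u v huv
    rcases hu : side u with _ | _
    · right
      rw [hEmem]
      refine ⟨by rw [Sym2.eq_swap]; exact huv, ?_, hu⟩
      rcases hv : side v with _ | _
      · exact absurd (hu.trans hv.symm) h
      · rfl
    · left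
      rw [hEmem]
      refine ⟨huv, hu, ?_⟩
      rcases hv : side v with _ | _
      · rfl
      · exact absurd (hu.trans hv.symm) h
  refine ⟨g, ?_, ?_⟩
  · intro e he
    induction e using Sym2.ind with
    | _ u v =>
      rcases horient u v he with h | h
      · rw [hg s(u, v) (u, v) h rfl]
        exact hfL (u, v) h
      · rw [hg s(u, v) (v, u) h Sym2.eq_swap, Sym2.eq_swap]
        exact hfL (v, u) h
  · intro u v w huv huw hvw
    rcases horient u v huv with h | h
    · rcases horient u w huw with h' | h'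
      · rw [hg s(u, v) (u, v) h rfl, hg s(u, w) (u, w) h' rfl]
        exact hfne (u, v) h (u, w) h' (fun e => hvw (Prod.ext_iff.1 e).2) (Or.inl rfl)
      · have g1 : side u = true := ((hEmem _).1 h).2.1
        have g2 : side u = false := ((hEmem _).1 h').2.2
        rw [g1] at g2
        exact absurd g2 (by decide)
    · rcases horient u w huw with h' | h'
      · have g1 : side u = true := ((hEmem _).1 h').2.1
        have g2 : side u = false := ((hEmem _).1 h).2.2
        rw [g1] at g2
        exact absurd g2 (by decide)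
      · rw [hg s(u, v) (v, u) h Sym2.eq_swap, hg s(u, w) (w, u) h' Sym2.eq_swap]
        exact hfne (v, u) h (w, u) h' (fun e => hvw (Prod.ext_iff.1 e).1) (Or.inr rfl)
end

end Pool.Agent.Helper36.LR
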