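import Pool.Agent.Helper15.LR.Defs3

set_option autoImplicit false

open Finset Filter
open scoped Classical Topology

namespace Pool.Agent.Helper36.LR

open Pool.Agent.Helper15.LR

noncomputable section

theorem SS_two_mul {n : ℕ} (hn : 12 ≤ n) : SS (2 * n) ≤ 8 / 5 * SS n := by
  unfold SS
  have hn0 : (0 : ℝ) < n := by exact_mod_cast (by omega : 0 < n)
  have hlog : 2 * Real.log 2 ≤ 14 / 25 * Real.log n := by
    have h1 : Real.log 12 ≤ Real.log n :=
      Real.log_le_log (by norm_num) (by exact_mod_cast hn)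
    have h2 : 25 * Real.log 2 ≤ 7 * Real.log 12 := by
      have e1 : 25 * Real.log 2 = Real.log ((2 : ℝ) ^ 25) := by
        rw [Real.log_pow]
        norm_num
      have e2 : 7 * Real.log 12 = Real.log ((12 : ℝ) ^ 7) := by
        rw [Real.log_pow]
        norm_num
      rw [e1, e2]
      exact Real.log_le_log (by norm_num) (by norm_num)
    linarith
  have hl2 : Real.log ((2 * n : ℕ) : ℝ) = Real.log 2 + Real.log n := by
    push_cast
    rw [Real.log_mul (by norm_num) (by linarith)]
  have hle : (((2 * n : ℕ) : ℝ) * Real.log ((2 * n : ℕ) : ℝ)) ≤ (8 / 5) ^ 2 * (n * Real.log n) := by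
    rw [hl2]
    push_cast
    have : (n : ℝ) * (2 * Real.log 2) ≤ n * (14 / 25 * Real.log n) :=
      mul_le_mul_of_nonneg_left hlog hn0.le
    nlinarith [this]
  calc Real.sqrt (((2 * n : ℕ) : ℝ) * Real.log ((2 * n : ℕ) : ℝ))
      ≤ Real.sqrt ((8 / 5) ^ 2 * (n * Real.log n)) := Real.sqrt_le_sqrt hle
    _ = 8 / 5 * Real.sqrt (n * Real.log n) := by
      rw [Real.sqrt_mul (by norm_num), Real.sqrt_sq (by norm_num)]

theorem R5 (hC : ColorSplit_stmt) : ColorSplit2_stmt := by
  intro K ε ρ η hK hε hε1 hρ hρε hη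
  have h1 := hC K (ε / 2) ρ (η / 4) hK (by linarith) (by linarith) hρ
    (by
      refine hρε.trans ?_
      have : 0 < ε ^ 2 := by positivity
      have e : (ε / 2) ^ 2 / 10 ^ 6 = ε ^ 2 / (4 * 10 ^ 6) := by ring
      rw [e]
      exact div_le_div_of_nonneg_left this.le (by norm_num) (by norm_num)) (by linarith)
  have htend : Tendsto (fun n : ℕ => 2 * n) atTop atTop :=
    Filter.tendsto_atTop_mono (fun n => (by show n ≤ 2 * n; omega)) tendsto_id
  have h2 := htend.eventually h1
  filter_upwards [h2, eventually_ge_atTop 12] with n hn hn12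
  intro ι _ m L hι hm hL
  have hSS : SS (2 * n) ≤ 8 / 5 * SS n := SS_two_mul hn12
  have hSS0 : 0 ≤ SS n := Real.sqrt_nonneg _
  obtain ⟨g, hg1, hg2, hg3⟩ := hn ι m L
    (hι.trans (Nat.pow_le_pow_left (by omega) 2)) hm hL
  refine ⟨g, ?_, ?_, ?_⟩
  · intro i j
    refine (hg1 i j).trans ?_
    linarith
  · intro i
    refine (hg2 i).trans ?_
    have : ε / 2 * SS (2 * n) ≤ ε * SS n := by
      calc ε / 2 * SS (2 * n) ≤ ε / 2 * (8 / 5 * SS n) :=
            mul_le_mul_of_nonneg_left hSS (by linarith)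
        _ = 4 / 5 * (ε * SS n) := by ring
        _ ≤ ε * SS n := by
            have : 0 ≤ ε * SS n := mul_nonneg hε.le hSS0
            linarith
    linarith
  · have hle : ε / 2 * SS (2 * n) / (8 * K) ≤ ε * SS n / (8 * K) := by
      have hK0 : (0 : ℝ) < K := by exact_mod_cast (by omega : 0 < K)
      refine div_le_div_of_nonneg_right ?_ (by positivity)
      calc ε / 2 * SS (2 * n) ≤ ε / 2 * (8 / 5 * SS n) :=
            mul_le_mul_of_nonneg_left hSS (by linarith)
        _ = 4 / 5 * (ε * SS n) := by ring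
        _ ≤ ε * SS n := by
            have : 0 ≤ ε * SS n := mul_nonneg hε.le hSS0
            linarith
    have hsub : (univ.filter (fun i : ι => ∃ j, (((L i).filter (fun x => g x = some j)).card : ℝ)
            < (1 - ρ) / K * m - ε * SS n / (8 * K))) ⊆
        (univ.filter (fun i : ι => ∃ j, (((L i).filter (fun x => g x = some j)).card : ℝ)
            < (1 - ρ) / K * m - ε / 2 * SS (2 * n) / (8 * K))) := by
      intro i hi
      rw [Finset.mem_filter] at hi ⊢
      obtain ⟨h3, j, hj⟩ := hi
      exact ⟨h3, j, lt_of_lt_of_le hj (by linarith)⟩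
    have h5 : (((univ.filter (fun i : ι => ∃ j, (((L i).filter (fun x => g x = some j)).card : ℝ)
            < (1 - ρ) / K * m - ε * SS n / (8 * K))).card : ℕ) : ℝ) ≤
        (((univ.filter (fun i : ι => ∃ j, (((L i).filter (fun x => g x = some j)).card : ℝ)
            < (1 - ρ) / K * m - ε / 2 * SS (2 * n) / (8 * K))).card : ℕ) : ℝ) := by
      exact_mod_cast Finset.card_le_card hsub
    refine h5.trans (hg3.trans ?_)
    push_cast
    have e : η / 4 * (2 * (n : ℝ)) ^ 2 = η * n ^ 2 := by ring
    rw [e]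

end

end Pool.Agent.Helper36.LR
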